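import Pool.Agent.Run7.h148.E3.Asm2

set_option autoImplicit false

/-!
# MP_b0497c_an: generic growth of the vorticity in the class of `x₃`-independent data

Let `u₀` be a velocity on `𝕋³` which does not depend on `x₃`, whose planar part `(u₀₁, u₀₂)` is
symmetric with respect to the mirror `x₂ = 0` and not constant.  Then for almost every
`(a₁, a₂) ∈ ℝ²` the solution of the Euler equations with initial velocity
`u₀ + (0, 0, a₁ cos x₁ + a₂ sin x₁)` has almost linearly growing vorticity, in `L¹(𝕋³)`.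
-/

open MeasureTheory Set

namespace Pool.Agent.Results.MP_b0497c_an.GenericVorticityGrowth

open Pool.Agent.H708R2.EulerSign Pool.Agent.H708R2.EulerTypeI Run7.h148.E3

/-- `(u, p)` is a classical solution of the Euler equations on `𝕋³` for all times `t ≥ 0`, of class
`C²` for `t > 0`. -/
def IsGlobalSolution (u : ℝ → V → V) (p : ℝ → V → ℝ) : Prop := ∀ T : ℝ, IsC2Solution T u p

/-- `‖curl u‖_{L¹(𝕋³)}`, `𝕋³ = [-π, π]³`. -/
noncomputable def vortL1 (u : V → V) : ℝ :=
  ∫ x in Icc (fun _ : Fin 3 => -Real.pi) (fun _ => Real.pi), nrm (vort u x)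

/-- Let `u₀` be independent of `x₃`, with a mirror symmetric, non-constant planar part.  Let `M` be
measurable with `∫₁^∞ M(t) t⁻² dt` convergent (e.g. `M(t) = t / (log (2 + t))²`).  For almost every
`(a₁, a₂) ∈ ℝ²`, every global classical solution `u` of the 3D Euler equations on `𝕋³` with
`u(0) = u₀ + (0, 0, a₁ cos x₁ + a₂ sin x₁)` satisfies `‖curl u(t)‖_{L¹} ≥ M(t)` for all `t > 1`
outside a set of finite logarithmic measure `∫ dt/t`. -/
theorem result {u₀ : V → V} (hz : Zind u₀) (hm : Mir u₀)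
    (hne : ∃ x y, u₀ x 0 ≠ u₀ y 0 ∨ u₀ x 1 ≠ u₀ y 1) {M : ℝ → ℝ} (hM : Measurable M)
    (hMi : IntegrableOn (fun t => M t / t ^ 2) (Ioi 1)) :
    ∀ᵐ a : ℝ × ℝ, ∀ (u : ℝ → V → V) (p : ℝ → V → ℝ), IsGlobalSolution u p →
      (∀ x, u 0 x = u₀ x + ![0, 0, a.1 * Real.cos (x 0) + a.2 * Real.sin (x 0)]) →
      ∫⁻ t in {t | 1 < t ∧ vortL1 (u t) < M t}, ENNReal.ofReal (1 / t) < ⊤ :=
  main hz hm hne hM hMi

end Pool.Agent.Results.MP_b0497c_an.GenericVorticityGrowth
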