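import Pool.Agent.Run7.h32.On.Fin3

/-!
# Onsager regularity of the dyadic model, uniformly in the viscosity

The dyadic model (Katz-Pavlović, Friedlander-Pavlović, Cheskidov-Friedlander-Pavlović) replaces
the Euler (`ν = 0`) and Navier-Stokes (`ν > 0`) equations by the infinite system
`X_n' = 2^{β (n - 1)} X_{n - 1} ^ 2 - 2^{β n} X_n X_{n + 1} - ν 4 ^ n X_n`, `n ≥ 0`, `X_{-1} = 0`
(`X_n ^ 2 / 2` is the energy of the frequencies of size `2 ^ n`).  For nonnegative square summable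
data the solution exists for all time and is unique; for `ν = 0` it leaves in finite time every
space `sup_n 2 ^ {s n} |X_n| < ∞`, `s > β / 3`.  The theorem says that the exponent `β / 3` is
reached at every positive time, with a bound which depends only on the energy of the data, and
which is uniform in the viscosity `ν ≥ 0`.
-/

set_option autoImplicit false

open Set

namespace Pool.Agent.Results.MP_b0497c_an.OnsagerDyadic

/-- The right hand side of the dyadic model. -/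
noncomputable def field (β ν : ℝ) (x : ℕ → ℝ) : ℕ → ℝ
  | 0 => -(x 0 * x 1) - ν * x 0
  | n + 1 => (2 : ℝ) ^ (β * n) * x n ^ 2 - (2 : ℝ) ^ (β * (n + 1)) * (x (n + 1) * x (n + 2))
      - ν * 4 ^ (n + 1) * x (n + 1)

/-- `X` is a solution (shell by shell) on `[0, ∞)` with the initial value `x`. -/
structure IsSol (β ν : ℝ) (x : ℕ → ℝ) (X : ℕ → ℝ → ℝ) : Prop where
  init : ∀ n, X n 0 = x n
  cont : ∀ n, ContinuousOn (X n) (Ici 0)
  ode : ∀ n, ∀ t : ℝ, 0 < t → HasDerivAt (X n) (field β ν (fun k => X k t) n) t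

theorem field_eq (β ν : ℝ) (x : ℕ → ℝ) (n : ℕ) : field β ν x n = Run7.h969.Dy.rhs β ν x n := by
  cases n <;> simp [field, Run7.h969.Dy.rhs]

theorem isSol_iff (β ν : ℝ) (x : ℕ → ℝ) (X : ℕ → ℝ → ℝ) :
    IsSol β ν x X ↔ Run7.h969.Dy.IsDy β ν x X := by
  constructor
  · intro h
    refine ⟨h.init, h.cont, fun n t ht => ?_⟩
    rw [← field_eq]
    exact h.ode n t ht
  · intro h
    refine ⟨h.init, h.cont, fun n t ht => ?_⟩
    rw [field_eq]
    exact h.ode n t ht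

/-- **Onsager regularity of the dyadic model**, uniformly in the viscosity. -/
theorem result {β : ℝ} (hβ : 5 / 2 ≤ β) :
    (∀ (ν : ℝ) (x : ℕ → ℝ), 0 ≤ ν → (∀ n, 0 ≤ x n) → (Summable fun n => x n ^ 2) →
      ∃ X : ℕ → ℝ → ℝ, IsSol β ν x X ∧ ∀ Y : ℕ → ℝ → ℝ, IsSol β ν x Y →
        ∀ n t, 0 ≤ t → Y n t = X n t) ∧
    ∀ τ E : ℝ, 0 < τ → ∃ C : ℝ, ∀ (ν : ℝ) (x : ℕ → ℝ) (X : ℕ → ℝ → ℝ), 0 ≤ ν →
      (∀ n, 0 ≤ x n) → (∀ N : ℕ, ∑ n ∈ Finset.range N, x n ^ 2 ≤ E) → IsSol β ν x X →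
      ∀ (n : ℕ) (t : ℝ), τ ≤ t → 0 ≤ X n t ∧ (2 : ℝ) ^ (β / 3 * n) * X n t ≤ C := by
  constructor
  · intro ν x hν hx hs
    obtain ⟨X, hX⟩ := Run7.h32.On.exist_l2' β hν hx hs
    refine ⟨X, (isSol_iff β ν x X).2 hX, fun Y hY n t ht => ?_⟩
    have hE : ∀ N : ℕ, ∑ n ∈ Finset.range N, x n ^ 2 ≤ ∑' n, x n ^ 2 := fun N =>
      hs.sum_le_tsum _ fun n _ => sq_nonneg _
    exact Run7.h32.On.unique' (by linarith) ⟨hν, hx, hE, hX⟩
      ⟨hν, hx, hE, (isSol_iff β ν x Y).1 hY⟩ n t ht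
  · intro τ E hτ
    by_cases hE : 0 ≤ E
    · obtain ⟨C, hC⟩ := Run7.h32.On.onsager_all hβ hτ hE
      refine ⟨C, fun ν x X hν hx hN hX n t ht => ?_⟩
      have S : Run7.h32.On.Sol β ν E x X := ⟨hν, hx, hN, (isSol_iff β ν x X).1 hX⟩
      exact ⟨S.nn n (hτ.le.trans ht), hC ν x X S t ht n⟩
    · refine ⟨0, fun ν x X _ hx hN hX n t ht => ?_⟩
      have := hN 0
      simp at this
      exact absurd this hE

end Pool.Agent.Results.MP_b0497c_an.OnsagerDyadic
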