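import Pool.Agent.Run7.h507.Sh15

/-!
# Euler on `𝕋³`: every solution, up to a possible singularity, is shadowed by smooth time-periodic
solutions

`FiniteModes` says that no finite number of Fourier modes of the velocity at *one time* can decide
on blow-up. Here this is shown for the whole history of the solution.

Let `w` be any classical solution on `[0, T)`; `T` may be the time of a singularity. For all `s > 1`
and `ε > 0` there is a `C^∞` solution `u` for all times `t ∈ ℝ`, with a pressure which does not
depend on time, which is periodic in time (so it is bounded for all times in every `H^m`), and which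
is `ε`-close to `w(t)` in `H^{-s}` at *all* times `t ∈ [0, T)`. Moreover, `u(t)` has exactly the same
Fourier coefficients as `w(t)` at all frequencies `l` with `|l i| ≤ K`, for all `t` in an arbitrary
finite set of times. In particular the histories of finitely many modes on the whole interval up to
the singularity, known up to any finite precision, are also those of a smooth time-periodic
solution.

In fact `w` need not solve the Euler equations: every curve of weakly divergence-free fields which
is bounded in `L²`, has a constant mean, and is uniformly weakly continuous on `[0, T)` is shadowed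
in the same way.

The solutions `u` are superpositions of flows in a fine periodic array of disjoint straight tubes
with rational directions. In the core of each tube the fluid rotates rigidly with an angular velocity
`Ω` and carries around an axial velocity `μ χ(|y|²) (y₁ cos Ωt + y₂ sin Ωt)` of mean zero, where `y`
are coordinates around the axis. On the average over many tubes the first moments of the axial
velocity produce a velocity `cos(Ωt) cos(l · x - φ) ξ`, and the array can be normalised so that *all*
Fourier modes with frequencies less than (almost) the number of tubes are exactly those of this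
field. The amplitudes of the axial velocity tend to infinity with the number `N` of tubes like `N`,
but its norm in `H⁻¹` stays bounded. Sums over `Ω = π r / T`, `r = 0, 1, 2, ...` approximate every
continuous history of the low modes.
-/

open MeasureTheory Set Pool.Agent.H708R2.EulerSign Pool.Agent.H708R2.EulerModes
open scoped ContDiff

set_option autoImplicit false

namespace Pool.Agent.Results.MP_b0497c_an.Shadowing

open Pool.Agent.Run7.h507.Sh (IsCurve)

/-- For every number `K`, every finite set `S` of times in `[0, T)` and all `s > 1`, `ε > 0` there
are `u(t, x)` and `p(x)` of class `C^∞` such that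

* `(u, p)` is a classical solution of the Euler equations on `𝕋³` for all times `t ∈ ℝ`;
* `u` is periodic in time with the period `2 T`;
* for each `t ∈ S`, `u(t)` and `b(t)` have the same Fourier coefficients at all frequencies `l` with
  `|l i| ≤ K`;
* the distance of `u(t)` and `b(t)` in `H^{-s}` is at most `ε` for all `t ∈ [0, T)`;
* every classical solution on a time interval `[0, T')` which is equal to `u` at one time is equal
  to `u` at all times. -/
def Shadowed (T : ℝ) (b : ℝ → V → V) : Prop :=
  ∀ (K : ℕ) (S : Finset ℝ) (s ε : ℝ), (∀ t ∈ S, t ∈ Ico 0 T) → 1 < s → 0 < ε →
    ∃ (u : ℝ → V → V) (p : V → ℝ),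
      ContDiff ℝ ∞ (fun z : ℝ × V => u z.1 z.2) ∧ ContDiff ℝ ∞ p ∧
      IsClassicalSolution univ u (fun _ => p) ∧
      (∀ t, u (t + 2 * T) = u t) ∧
      (∀ t ∈ S, SameModes K (u t) (b t)) ∧
      (∀ t ∈ Ico 0 T, HNegClose s ε (u t) (b t)) ∧
      (∀ (T' : ℝ) (v : ℝ → V → V) (q : ℝ → V → ℝ), IsClassicalSolution (Ico 0 T') v q →
        ∀ t₀ ∈ Ico 0 T', v t₀ = u t₀ → ∀ t ∈ Ico 0 T', v t = u t)

/-- Let `b` be the velocity of a classical solution of the Euler equations on a finite time interval
`[0, T)`, or any curve of weakly divergence-free fields on `[0, T)` which is bounded in `L²`, has a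
constant mean value, and is uniformly weakly continuous. Then `b` is shadowed by `C^∞` solutions
of the Euler equations which are periodic in time. -/
theorem result (T : ℝ) (hT : 0 < T) (b : ℝ → V → V)
    (hb : (∃ q : ℝ → V → ℝ, IsClassicalSolution (Ico 0 T) b q) ∨ IsCurve T b) :
    Shadowed T b := by
  have hb' : IsCurve T b := by
    rcases hb with ⟨q, hq⟩ | h
    · exact Pool.Agent.Run7.h507.Sh.isCurve_of_classical hq
    · exact h
  intro K S s ε hS hs hε
  obtain ⟨u, p, hsol, htime, hm, hc⟩ :=
    Pool.Agent.Run7.h507.Sh.main_curve hT hb' K S hS hs hε
  exact ⟨u, p, hsol.smooth, hsol.psmooth, hsol.classical, fun t => funext fun x => htime t x,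
    hm, hc, fun T' v q hv t₀ ht₀ h0 => Pool.Agent.Run7.h507.Sh.unique_smooth hsol.smooth
      hsol.psmooth hsol.per hsol.pper hsol.div hsol.mom hv ht₀ h0⟩

end Pool.Agent.Results.MP_b0497c_an.Shadowing
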